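import Pool.Agent.Helper50.BP.St

set_option autoImplicit false

namespace Pool.Agent.Helper69.BP

open Pool.Agent.Helper50.BP

theorem hDF (h1 : StGNV) : StDF := by
  intro F
  haveI := F
  have h5 : (5 : GaloisField 5 1) = 0 := by
    have := CharP.cast_eq_zero (GaloisField 5 1) 5
    simpa using this
  have h6 : (2 : GaloisField 5 1) * 3 = 1 := by linear_combination h5
  refine ⟨⟨2, 3, h6, by rw [mul_comm]; exact h6⟩, ?_, ?_, ?_⟩
  · show (2 : GaloisField 5 1) ^ 2 = -1
    linear_combination h5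
  · show (2 : GaloisField 5 1) ^ 2 + (2 : GaloisField 5 1) ^ 1 = 1
    linear_combination h5
  · exact h1 5 1 le_rfl (⟨2, 3, h6, by rw [mul_comm]; exact h6⟩) _ 1 (pow_one _)
      (fun d h1 h2 => absurd h2 (by omega))

end Pool.Agent.Helper69.BP
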